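import Pool.Agent.H964.DP.Stm

/-! # Local bound for the planar simple random walk -/

set_option autoImplicit false

open MeasureTheory ProbabilityTheory Filter Finset
open Pool.Agent.H964.DP

namespace Pool.Agent.H323.DP

/-- one dimensional simple random walk -/
noncomputable def b1 : ℕ → ℤ → ℝ
  | 0, k => if k = 0 then 1 else 0
  | n + 1, k => (b1 n (k - 1) + b1 n (k + 1)) / 2

theorem b1_nonneg : ∀ (n : ℕ) (k : ℤ), 0 ≤ b1 n k := by
  intro n
  induction n with
  | zero => intro k; unfold b1; split_ifs <;> norm_num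
  | succ n ih =>
    intro k
    have h1 := ih (k - 1)
    have h2 := ih (k + 1)
    show 0 ≤ (b1 n (k - 1) + b1 n (k + 1)) / 2
    linarith

theorem b1_form : ∀ n : ℕ, (∀ j : ℕ, b1 n (2 * j - n) = (n.choose j : ℝ) / 2 ^ n) ∧
    (∀ m : ℤ, m < 0 → b1 n (2 * m - n) = 0) ∧ ∀ m : ℤ, b1 n (2 * m + 1 - n) = 0 := by
  intro n
  induction n with
  | zero =>
    refine ⟨?_, ?_, ?_⟩
    · intro j
      cases j with
      | zero => simp [b1]
      | succ j =>
        simp only [b1, Nat.choose_zero_succ, Nat.cast_zero, zero_div]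
        rw [if_neg]
        push_cast
        omega
    · intro m hm
      simp only [b1]
      rw [if_neg]
      push_cast
      omega
    · intro m
      simp only [b1]
      rw [if_neg]
      push_cast
      omega
  | succ n ih =>
    obtain ⟨i1, i2, i3⟩ := ih
    refine ⟨?_, ?_, ?_⟩
    · intro j
      show (b1 n (2 * j - (n + 1 : ℕ) - 1) + b1 n (2 * j - (n + 1 : ℕ) + 1)) / 2 = _
      have e2 : (2 * (j : ℤ) - ((n + 1 : ℕ) : ℤ) + 1) = 2 * (j : ℤ) - (n : ℤ) := by push_cast; ring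
      rw [e2, i1 j]
      cases j with
      | zero =>
        have e1 : (2 * ((0 : ℕ) : ℤ) - ((n + 1 : ℕ) : ℤ) - 1) = 2 * (-1 : ℤ) - (n : ℤ) := by
          push_cast; ring
        rw [e1, i2 (-1) (by norm_num)]
        simp only [Nat.choose_zero_right]
        rw [pow_succ]
        field_simp
        ring
      | succ j =>
        have e1 : (2 * ((j + 1 : ℕ) : ℤ) - ((n + 1 : ℕ) : ℤ) - 1) = 2 * (j : ℤ) - (n : ℤ) := by
          push_cast; ring
        rw [e1, i1 j, Nat.choose_succ_succ, pow_succ]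
        push_cast
        field_simp
    · intro m hm
      show (b1 n (2 * m - (n + 1 : ℕ) - 1) + b1 n (2 * m - (n + 1 : ℕ) + 1)) / 2 = 0
      have e1 : (2 * m - ((n + 1 : ℕ) : ℤ) - 1) = 2 * (m - 1) - (n : ℤ) := by push_cast; ring
      have e2 : (2 * m - ((n + 1 : ℕ) : ℤ) + 1) = 2 * m - (n : ℤ) := by push_cast; ring
      rw [e1, e2, i2 (m - 1) (by omega), i2 m hm]
      norm_num
    · intro m
      show (b1 n (2 * m + 1 - (n + 1 : ℕ) - 1) + b1 n (2 * m + 1 - (n + 1 : ℕ) + 1)) / 2 = 0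
      have e1 : (2 * m + 1 - ((n + 1 : ℕ) : ℤ) - 1) = 2 * (m - 1) + 1 - (n : ℤ) := by push_cast; ring
      have e2 : (2 * m + 1 - ((n + 1 : ℕ) : ℤ) + 1) = 2 * m + 1 - (n : ℤ) := by push_cast; ring
      rw [e1, e2, i3, i3]
      norm_num

theorem central_bd : ∀ m : ℕ, (m.centralBinom : ℝ) ^ 2 * (2 * m + 1) ≤ 16 ^ m := by
  intro m
  induction m with
  | zero => simp
  | succ m ih =>
    have h := Nat.succ_mul_centralBinom_succ m
    have h' : ((m : ℝ) + 1) * ((m + 1).centralBinom : ℝ) = 2 * (2 * m + 1) * (m.centralBinom : ℝ) := by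
      exact_mod_cast h
    have hm : (0 : ℝ) < (m : ℝ) + 1 := by positivity
    have h2 : ((m + 1).centralBinom : ℝ) = 2 * (2 * m + 1) * (m.centralBinom : ℝ) / ((m : ℝ) + 1) := by
      rw [eq_div_iff hm.ne']
      linarith
    rw [h2, div_pow, div_mul_eq_mul_div, div_le_iff₀ (by positivity), pow_succ (16 : ℝ)]
    push_cast
    have h3 : (0 : ℝ) ≤ (m.centralBinom : ℝ) ^ 2 * (2 * m + 1) := by positivity
    have h4 : (2 * (2 * (m : ℝ) + 1) * (m.centralBinom : ℝ)) ^ 2 * (2 * ((m : ℝ) + 1) + 1)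
        = ((m.centralBinom : ℝ) ^ 2 * (2 * m + 1)) * (4 * ((2 * m + 1) * (2 * m + 3))) := by ring
    rw [h4]
    have h5 : 4 * ((2 * (m : ℝ) + 1) * (2 * m + 3)) ≤ 16 * ((m : ℝ) + 1) ^ 2 := by nlinarith
    calc ((m.centralBinom : ℝ) ^ 2 * (2 * m + 1)) * (4 * ((2 * m + 1) * (2 * m + 3)))
        ≤ ((m.centralBinom : ℝ) ^ 2 * (2 * m + 1)) * (16 * ((m : ℝ) + 1) ^ 2) :=
          mul_le_mul_of_nonneg_left h5 h3
      _ ≤ 16 ^ m * (16 * ((m : ℝ) + 1) ^ 2) := mul_le_mul_of_nonneg_right ih (by positivity)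
      _ = 16 ^ m * 16 * ((m : ℝ) + 1) ^ 2 := by ring

theorem b1_even (m : ℕ) (k : ℤ) : b1 (2 * m) k ≤ 1 / Real.sqrt (2 * m + 1) := by
  have hpos : (0 : ℝ) < Real.sqrt (2 * m + 1) := Real.sqrt_pos.2 (by positivity)
  have hz : b1 (2 * m) k = 0 → b1 (2 * m) k ≤ 1 / Real.sqrt (2 * m + 1) := by
    intro h; rw [h]; positivity
  obtain ⟨f1, f2, f3⟩ := b1_form (2 * m)
  rcases Int.even_or_odd' k with ⟨c, hc | hc⟩
  · -- k = 2 c
    by_cases hneg : c + m < 0
    · apply hz
      have := f2 (c + m) hneg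
      rw [← this]
      congr 1
      push_cast
      omega
    · obtain ⟨j, hj⟩ : ∃ j : ℕ, (j : ℤ) = c + m := ⟨(c + m).toNat, by omega⟩
      have h1 := f1 j
      have hk : (2 * (j : ℤ) - ((2 * m : ℕ) : ℤ)) = k := by push_cast; omega
      rw [hk] at h1
      rw [h1, div_le_div_iff₀ (by positivity) hpos, one_mul]
      have h2 : (((2 * m).choose j : ℕ) : ℝ) ≤ (m.centralBinom : ℝ) := by
        exact_mod_cast Nat.choose_le_centralBinom j m
      have h3 := central_bd m
      have h4 : (m.centralBinom : ℝ) * Real.sqrt (2 * m + 1) ≤ 2 ^ (2 * m) := by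
        apply le_of_sq_le_sq _ (by positivity)
        rw [mul_pow, Real.sq_sqrt (by positivity), ← pow_mul]
        calc (m.centralBinom : ℝ) ^ 2 * (2 * m + 1) ≤ 16 ^ m := h3
          _ = 2 ^ (2 * m * 2) := by
            rw [show 2 * m * 2 = 4 * m by ring, pow_mul]; norm_num
      exact (mul_le_mul_of_nonneg_right h2 hpos.le).trans h4
  · apply hz
    have := f3 (c + m)
    rw [← this]
    congr 1
    push_cast
    omega

theorem b1_le (n : ℕ) (k : ℤ) : b1 n k ≤ 2 / Real.sqrt (n + 1) := by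
  rcases Nat.even_or_odd' n with ⟨m, rfl | rfl⟩
  · have h := b1_even m k
    have hpos : (0 : ℝ) < Real.sqrt (2 * m + 1) := Real.sqrt_pos.2 (by positivity)
    push_cast
    refine h.trans ?_
    exact div_le_div_of_nonneg_right (by norm_num) hpos.le
  · have h1 := b1_even m (k - 1)
    have h2 := b1_even m (k + 1)
    have hpos : (0 : ℝ) < Real.sqrt (2 * m + 1) := Real.sqrt_pos.2 (by positivity)
    have hpos2 : (0 : ℝ) < Real.sqrt (2 * m + 1 + 1) := Real.sqrt_pos.2 (by positivity)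
    have h3 : b1 (2 * m + 1) k = (b1 (2 * m) (k - 1) + b1 (2 * m) (k + 1)) / 2 := rfl
    have h4 : 1 / Real.sqrt (2 * m + 1) ≤ 2 / Real.sqrt (2 * m + 1 + 1) := by
      rw [div_le_div_iff₀ hpos hpos2, one_mul]
      apply le_of_sq_le_sq _ (by positivity)
      rw [mul_pow, Real.sq_sqrt (by positivity), Real.sq_sqrt (by positivity)]
      have : (0 : ℝ) ≤ m := by positivity
      linarith
    push_cast
    rw [h3]
    linarith

theorem kernel (z : V) : ∀ (n : ℕ) (x : V), Pn n (fun y => if y = z then (1 : ℝ) else 0) x =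
    b1 n ((z.1 - x.1) + (z.2 - x.2)) * b1 n ((z.1 - x.1) - (z.2 - x.2)) := by
  intro n
  induction n with
  | zero =>
    intro x
    show (if x = z then (1 : ℝ) else 0) = (if (z.1 - x.1) + (z.2 - x.2) = 0 then (1 : ℝ) else 0)
      * (if (z.1 - x.1) - (z.2 - x.2) = 0 then (1 : ℝ) else 0)
    by_cases h : x = z
    · subst h; simp
    · rw [if_neg h]
      by_cases h1 : (z.1 - x.1) + (z.2 - x.2) = 0
      · have h2 : ¬ (z.1 - x.1) - (z.2 - x.2) = 0 := by
          intro h2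
          apply h
          apply Prod.ext <;> omega
        rw [if_neg h2, mul_zero]
      · rw [if_neg h1, zero_mul]
  | succ n ih =>
    intro x
    show avg (Pn n (fun y => if y = z then (1 : ℝ) else 0)) x = _
    unfold avg
    simp only [Fin.sum_univ_four, ih]
    have s0 : x + stp 0 = (x.1 + 1, x.2) := by
      apply Prod.ext <;> simp [stp]
    have s1 : x + stp 1 = (x.1 - 1, x.2) := by
      apply Prod.ext
      · simp [stp]; ring
      · simp [stp]
    have s2 : x + stp 2 = (x.1, x.2 + 1) := by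
      apply Prod.ext <;> simp [stp]
    have s3 : x + stp 3 = (x.1, x.2 - 1) := by
      apply Prod.ext
      · simp [stp]
      · simp [stp]; ring
    rw [s0, s1, s2, s3]
    show _ = (b1 n ((z.1 - x.1) + (z.2 - x.2) - 1) + b1 n ((z.1 - x.1) + (z.2 - x.2) + 1)) / 2 *
      ((b1 n ((z.1 - x.1) - (z.2 - x.2) - 1) + b1 n ((z.1 - x.1) - (z.2 - x.2) + 1)) / 2)
    simp only
    rw [show z.1 - (x.1 + 1) + (z.2 - x.2) = (z.1 - x.1) + (z.2 - x.2) - 1 by ring,
      show z.1 - (x.1 + 1) - (z.2 - x.2) = (z.1 - x.1) - (z.2 - x.2) - 1 by ring,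
      show z.1 - (x.1 - 1) + (z.2 - x.2) = (z.1 - x.1) + (z.2 - x.2) + 1 by ring,
      show z.1 - (x.1 - 1) - (z.2 - x.2) = (z.1 - x.1) - (z.2 - x.2) + 1 by ring,
      show z.1 - x.1 + (z.2 - (x.2 + 1)) = (z.1 - x.1) + (z.2 - x.2) - 1 by ring,
      show z.1 - x.1 - (z.2 - (x.2 + 1)) = (z.1 - x.1) - (z.2 - x.2) + 1 by ring,
      show z.1 - x.1 + (z.2 - (x.2 - 1)) = (z.1 - x.1) + (z.2 - x.2) + 1 by ring,
      show z.1 - x.1 - (z.2 - (x.2 - 1)) = (z.1 - x.1) - (z.2 - x.2) - 1 by ring]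
    ring

theorem t_LCLT : S_LCLT := by
  intro n x z
  rw [kernel]
  have hn : (0 : ℝ) < (n : ℝ) + 1 := by positivity
  have h1 := b1_le n ((z.1 - x.1) + (z.2 - x.2))
  have h2 := b1_le n ((z.1 - x.1) - (z.2 - x.2))
  calc b1 n ((z.1 - x.1) + (z.2 - x.2)) * b1 n ((z.1 - x.1) - (z.2 - x.2))
      ≤ (2 / Real.sqrt (n + 1)) * (2 / Real.sqrt (n + 1)) :=
        mul_le_mul h1 h2 (b1_nonneg _ _) (by positivity)
    _ = 4 / (n + 1) := by
      rw [div_mul_div_comm, Real.mul_self_sqrt hn.le]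
      norm_num

end Pool.Agent.H323.DP
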