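import Pool.Agent.H964.DP.Stm

/-! # Moments of chains in independent slices -/

set_option autoImplicit false

open MeasureTheory ProbabilityTheory Filter Finset
open Pool.Agent.H964.DP

namespace Pool.Agent.H323.DP

section cns
variable {S : Type}

/-- prepend a slice -/
def cn (z : S × (ℕ → S)) : ℕ → S
  | 0 => z.1
  | n + 1 => z.2 n

theorem cn_meas [MeasurableSpace S] : Measurable (cn : S × (ℕ → S) → ℕ → S) := by
  rw [measurable_pi_iff]
  intro n
  cases n with
  | zero => exact measurable_fst
  | succ n => exact (measurable_pi_apply n).comp measurable_snd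

theorem cn_map [MeasurableSpace S] (ν : ℕ → Measure S) [∀ k, IsProbabilityMeasure (ν k)] :
    ((ν 0).prod (Measure.infinitePi (fun k : ℕ => ν (k + 1)))).map cn = Measure.infinitePi ν := by
  apply Measure.eq_infinitePi
  intro s t ht
  classical
  have hms : MeasurableSet (Set.pi (s : Set ℕ) t) :=
    MeasurableSet.pi s.countable_toSet (fun i _ => ht i)
  rw [Measure.map_apply cn_meas hms]
  have hinj : Function.Injective (fun m : ℕ => m + 1) := fun a b h => by simpa using h
  have hpre : cn ⁻¹' (Set.pi (s : Set ℕ) t) =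
      (if 0 ∈ s then t 0 else Set.univ) ×ˢ
        (Set.pi (((s.erase 0).preimage (fun m : ℕ => m + 1) hinj.injOn : Finset ℕ) : Set ℕ)
          (fun m => t (m + 1))) := by
    ext z
    simp only [Set.mem_preimage, Set.mem_pi, Set.mem_prod, Finset.mem_coe, Finset.mem_preimage,
      Finset.mem_erase]
    constructor
    · intro h
      refine ⟨?_, ?_⟩
      · split_ifs with h1
        · exact h 0 h1
        · trivial
      · intro m hm
        exact h (m + 1) hm.2
    · rintro ⟨h1, h2⟩ n hn
      cases n with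
      | zero =>
        rw [if_pos hn] at h1
        exact h1
      | succ n => exact h2 n ⟨Nat.succ_ne_zero n, hn⟩
  rw [hpre, Measure.prod_prod, Measure.infinitePi_pi _ (fun i _ => ht (i + 1))]
  have hprod : ∏ i ∈ (s.erase 0).preimage (fun m : ℕ => m + 1) hinj.injOn, ν (i + 1) (t (i + 1))
      = ∏ i ∈ s.erase 0, ν i (t i) := by
    apply Finset.prod_preimage (fun m : ℕ => m + 1) (s.erase 0) hinj.injOn (fun i => ν i (t i))
    intro x hx hx2
    exfalso
    apply hx2
    have h0 := Finset.ne_of_mem_erase hx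
    exact ⟨x - 1, by show x - 1 + 1 = x; omega⟩
  rw [hprod]
  by_cases h1 : 0 ∈ s
  · rw [if_pos h1, Finset.mul_prod_erase s (fun i => ν i (t i)) h1]
  · rw [if_neg h1, measure_univ, one_mul, Finset.erase_eq_of_notMem h1]

end cns

theorem avg_mono {f g : V → ℝ} (x : V) (h : ∀ y, f y ≤ g y) : avg f x ≤ avg g x := by
  unfold avg
  apply div_le_div_of_nonneg_right _ (by norm_num)
  exact Finset.sum_le_sum (fun e _ => h _)

theorem abs_avg_le (f : V → ℝ) (x : V) : |avg f x| ≤ avg (fun y => |f y|) x := by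
  unfold avg
  rw [abs_div, abs_of_pos (show (0 : ℝ) < 4 by norm_num)]
  apply div_le_div_of_nonneg_right _ (by norm_num)
  exact Finset.abs_sum_le_sum_abs _ _

theorem avg_mul_avg (F G : V → ℝ) (x y : V) :
    avg F x * avg G y = avg (fun x' => avg (fun y' => F x' * G y') y) x := by
  unfold avg
  rw [div_mul_div_comm, Finset.sum_mul_sum]
  rw [← Finset.sum_div, div_div]

theorem const_mul_avg (c : ℝ) (f : V → ℝ) (x : V) : c * avg f x = avg (fun y => c * f y) x := by
  unfold avg
  rw [← Finset.mul_sum, mul_div_assoc]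

theorem avg_memLp {Ω : Type} [MeasurableSpace Ω] {P : Measure Ω} {h : V → Ω → ℝ} (x : V)
    (hm : ∀ y, MemLp (h y) 2 P) : MemLp (fun z => avg (fun y => h y z) x) 2 P := by
  unfold avg
  simp only [div_eq_mul_inv]
  exact (memLp_finsetSum _ (fun e _ => hm (x + stp e))).mul_const _

theorem avg_integrable {Ω : Type} [MeasurableSpace Ω] {P : Measure Ω} {h : V → Ω → ℝ} (x : V)
    (hm : ∀ y, Integrable (h y) P) : Integrable (fun z => avg (fun y => h y z) x) P := by
  unfold avg
  exact (integrable_finsetSum _ (fun e _ => hm (x + stp e))).div_const _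

theorem avg_integral {Ω : Type} [MeasurableSpace Ω] {P : Measure Ω} {h : V → Ω → ℝ} (x : V)
    (hm : ∀ y, Integrable (h y) P) :
    ∫ z, avg (fun y => h y z) x ∂P = avg (fun y => ∫ z, h y z ∂P) x := by
  unfold avg
  rw [integral_div, integral_finsetSum _ (fun e _ => hm (x + stp e))]

theorem avg_measurable {Ω : Type} [MeasurableSpace Ω] {h : V → Ω → ℝ} (x : V)
    (hm : ∀ y, Measurable (h y)) : Measurable (fun z => avg (fun y => h y z) x) := by
  unfold avg
  exact (Finset.measurable_fun_sum _ (fun e _ => hm (x + stp e))).div_const _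

section main
variable {S : Type} [MeasurableSpace S] (g : V → S → ℝ)

/-- the chains -/
noncomputable def AA (d : V → ℝ) (n : ℕ) (k : ℕ) (x : V) (w : ℕ → S) : ℝ :=
  Ch d n (fun i y => g y (w i)) k x

/-- the chains with one vertex less -/
noncomputable def AB (d : V → ℝ) (n : ℕ) (k : ℕ) (x : V) (w : ℕ → S) : ℝ :=
  if k = 0 then 0 else AA g d n (k - 1) x w

omit [MeasurableSpace S] in
theorem AA_cn (d : V → ℝ) (n k : ℕ) (x : V) (z : S × (ℕ → S)) :
    AA g d (n + 1) k x (cn z) = avg (fun y => d y * (AA g d n k y z.2 + g y z.1 * AB g d n k y z.2)) x :=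
  rfl

theorem AA_meas (hg : ∀ x, Measurable (g x)) (d : V → ℝ) : ∀ (n k : ℕ) (x : V),
    Measurable (AA g d n k x) := by
  intro n
  induction n with
  | zero => intro k x; exact measurable_const
  | succ n ih =>
    intro k x
    have hsh : Measurable (fun w : ℕ → S => fun i => w (i + 1)) :=
      measurable_pi_iff.2 (fun i => measurable_pi_apply (i + 1))
    have e : AA g d (n + 1) k x = fun w => avg (fun y => d y * (AA g d n k y (fun i => w (i + 1)) +
      g y (w 0) * AB g d n k y (fun i => w (i + 1)))) x := rfl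
    rw [e]
    apply avg_measurable
    intro y
    apply Measurable.const_mul
    apply Measurable.add ((ih k y).comp hsh)
    apply Measurable.mul ((hg y).comp (measurable_pi_apply 0))
    unfold AB
    by_cases hk : k = 0
    · simp only [hk, if_true]; exact measurable_const
    · simp only [hk, if_false]
      exact (ih (k - 1) y).comp hsh

theorem AB_meas (hg : ∀ x, Measurable (g x)) (d : V → ℝ) (n k : ℕ) (x : V) :
    Measurable (AB g d n k x) := by
  unfold AB
  by_cases hk : k = 0
  · simp only [hk, if_true]; exact measurable_const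
  · simp only [hk, if_false]
    exact AA_meas g hg d n (k - 1) x

theorem memLp_prod {P : Measure S} [IsProbabilityMeasure P] {Q : Measure (ℕ → S)}
    [IsProbabilityMeasure Q] {a : S → ℝ} {b : (ℕ → S) → ℝ} (ha : MemLp a 2 P) (hb : MemLp b 2 Q) :
    MemLp (fun z : S × (ℕ → S) => a z.1 * b z.2) 2 (P.prod Q) := by
  have h1 : AEStronglyMeasurable (fun z : S × (ℕ → S) => a z.1 * b z.2) (P.prod Q) :=
    ha.1.comp_fst.mul hb.1.comp_snd
  rw [memLp_two_iff_integrable_sq h1]
  have h2 := ((memLp_two_iff_integrable_sq ha.1).1 ha).mul_prod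
    ((memLp_two_iff_integrable_sq hb.1).1 hb)
  have e : (fun z : S × (ℕ → S) => (a z.1 * b z.2) ^ 2) = fun z => a z.1 ^ 2 * b z.2 ^ 2 := by
    funext z; rw [mul_pow]
  rw [e]
  exact h2

theorem AA_memLp (hg : ∀ x, Measurable (g x)) (d : V → ℝ) : ∀ (n : ℕ) (ν : ℕ → Measure S)
    [∀ k, IsProbabilityMeasure (ν k)], (∀ k x, MemLp (g x) 2 (ν k)) → ∀ (k : ℕ) (x : V),
    MemLp (AA g d n k x) 2 (Measure.infinitePi ν) := by
  intro n
  induction n with
  | zero => intro ν _ _ k x; exact memLp_const _
  | succ n ih =>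
    intro ν _ hL k x
    rw [← cn_map ν, memLp_map_measure_iff (AA_meas g hg d (n + 1) k x).aestronglyMeasurable
      cn_meas.aemeasurable]
    have ih' := ih (fun k => ν (k + 1)) (fun k => hL (k + 1))
    have e : AA g d (n + 1) k x ∘ cn = fun z => avg (fun y => d y * (AA g d n k y z.2 +
      g y z.1 * AB g d n k y z.2)) x := rfl
    rw [e]
    apply avg_memLp
    intro y
    apply MemLp.const_mul
    apply MemLp.add
    · exact (ih' k y).comp_snd _
    · apply memLp_prod (hL 0 y)
      unfold AB
      by_cases hk : k = 0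
      · simp only [hk, if_true]; exact memLp_const _
      · simp only [hk, if_false]
        exact ih' (k - 1) y

theorem AB_memLp (hg : ∀ x, Measurable (g x)) (d : V → ℝ) (n : ℕ) (ν : ℕ → Measure S)
    [∀ k, IsProbabilityMeasure (ν k)] (hL : ∀ k x, MemLp (g x) 2 (ν k)) (k : ℕ) (x : V) :
    MemLp (AB g d n k x) 2 (Measure.infinitePi ν) := by
  unfold AB
  by_cases hk : k = 0
  · simp only [hk, if_true]; exact memLp_const _
  · simp only [hk, if_false]
    exact AA_memLp g hg d n ν hL (k - 1) x

theorem AA_mean (hg : ∀ x, Measurable (g x)) (d : V → ℝ) : ∀ (n : ℕ) (ν : ℕ → Measure S)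
    [∀ k, IsProbabilityMeasure (ν k)] (m : ℕ → V → ℝ), (∀ k x, MemLp (g x) 2 (ν k)) →
    (∀ k x, ∫ s, g x s ∂(ν k) = m k x) → ∀ (k : ℕ) (x : V),
    ∫ w, AA g d n k x w ∂(Measure.infinitePi ν) = Ch d n m k x := by
  intro n
  induction n with
  | zero =>
    intro ν _ m _ _ k x
    have e : AA g d 0 k x = fun _ => if k = 0 then (1 : ℝ) else 0 := rfl
    rw [e, integral_const]
    simp [Ch]
  | succ n ih =>
    intro ν _ m hL hm k x
    have ih' := ih (fun k => ν (k + 1)) (fun k => m (k + 1)) (fun k => hL (k + 1)) (fun k => hm (k + 1))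
    have hAA := fun k y => AA_memLp g hg d n (fun k => ν (k + 1)) (fun k => hL (k + 1)) k y
    have hAB := fun k y => AB_memLp g hg d n (fun k => ν (k + 1)) (fun k => hL (k + 1)) k y
    rw [← cn_map ν, integral_map cn_meas.aemeasurable
      (AA_meas g hg d (n + 1) k x).aestronglyMeasurable]
    simp only [AA_cn]
    have hi1 : ∀ y, Integrable (fun z : S × (ℕ → S) => AA g d n k y z.2)
        ((ν 0).prod (Measure.infinitePi (fun k : ℕ => ν (k + 1)))) := fun y =>
      ((hAA k y).integrable (by norm_num)).comp_snd _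
    have hi2 : ∀ y, Integrable (fun z : S × (ℕ → S) => g y z.1 * AB g d n k y z.2)
        ((ν 0).prod (Measure.infinitePi (fun k : ℕ => ν (k + 1)))) := fun y =>
      ((hL 0 y).integrable (by norm_num)).mul_prod ((hAB k y).integrable (by norm_num))
    rw [avg_integral (h := fun y (z : S × (ℕ → S)) => d y * (AA g d n k y z.2 +
      g y z.1 * AB g d n k y z.2)) x (fun y => ((hi1 y).add (hi2 y)).const_mul _)]
    show _ = avg (fun y => d y * (Ch d n (fun i => m (i + 1)) k y +
      m 0 y * (if k = 0 then 0 else Ch d n (fun i => m (i + 1)) (k - 1) y))) x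
    congr 1
    funext y
    rw [integral_const_mul, integral_add (hi1 y) (hi2 y), integral_prod_mul (g y) (AB g d n k y),
      hm 0 y]
    congr 2
    · have := integral_prod_mul (μ := ν 0) (ν := Measure.infinitePi (fun k : ℕ => ν (k + 1)))
        (fun _ => (1 : ℝ)) (AA g d n k y)
      simp only [one_mul, integral_const, probReal_univ, smul_eq_mul, mul_one] at this
      rw [this]
      exact ih' k y
    · congr 1
      unfold AB
      by_cases hk : k = 0
      · simp [hk]
      · simp only [hk, if_false]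
        exact ih' (k - 1) y

/-- one step of the second moment -/
theorem second (hg : ∀ x, Measurable (g x)) (d d' : V → ℝ) (n : ℕ) (ν : ℕ → Measure S)
    [∀ k, IsProbabilityMeasure (ν k)] (m : V → ℝ) (c : V → V → ℝ)
    (hL : ∀ k x, MemLp (g x) 2 (ν k)) (hm : ∀ x, ∫ s, g x s ∂(ν 0) = m x)
    (hc : ∀ x y, ∫ s, g x s * g y s ∂(ν 0) = c x y + m x * m y) (k l : ℕ) (x y : V) :
    ∫ w, AA g d (n + 1) k x w * AA g d' (n + 1) l y w ∂(Measure.infinitePi ν) =
      avg (fun x' => avg (fun y' => d x' * d' y' * (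
        ∫ w, AA g d n k x' w * AA g d' n l y' w ∂(Measure.infinitePi (fun k => ν (k + 1))) +
        m y' * ∫ w, AA g d n k x' w * AB g d' n l y' w ∂(Measure.infinitePi (fun k => ν (k + 1))) +
        m x' * ∫ w, AB g d n k x' w * AA g d' n l y' w ∂(Measure.infinitePi (fun k => ν (k + 1))) +
        (c x' y' + m x' * m y') *
          ∫ w, AB g d n k x' w * AB g d' n l y' w ∂(Measure.infinitePi (fun k => ν (k + 1))))) y) x := by
  set Q := Measure.infinitePi (fun k : ℕ => ν (k + 1)) with hQ
  have hAA := fun (d : V → ℝ) k y => AA_memLp g hg d n (fun k => ν (k + 1)) (fun k => hL (k + 1)) k y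
  have hAB := fun (d : V → ℝ) k y => AB_memLp g hg d n (fun k => ν (k + 1)) (fun k => hL (k + 1)) k y
  have hAAm := fun (d : V → ℝ) k y => AA_meas g hg d n k y
  have hABm := fun (d : V → ℝ) k y => AB_meas g hg d n k y
  have hmm : Measurable (fun w : ℕ → S => AA g d (n + 1) k x w * AA g d' (n + 1) l y w) :=
    (AA_meas g hg d (n + 1) k x).mul (AA_meas g hg d' (n + 1) l y)
  rw [← cn_map ν, integral_map cn_meas.aemeasurable hmm.aestronglyMeasurable]
  simp only [AA_cn]
  have e1 : ∀ z : S × (ℕ → S),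
      avg (fun x' => d x' * (AA g d n k x' z.2 + g x' z.1 * AB g d n k x' z.2)) x *
      avg (fun y' => d' y' * (AA g d' n l y' z.2 + g y' z.1 * AB g d' n l y' z.2)) y =
      avg (fun x' => avg (fun y' => d x' * d' y' * (
        (fun _ => (1 : ℝ)) z.1 * (fun w => AA g d n k x' w * AA g d' n l y' w) z.2 +
        g y' z.1 * (fun w => AA g d n k x' w * AB g d' n l y' w) z.2 +
        g x' z.1 * (fun w => AB g d n k x' w * AA g d' n l y' w) z.2 +
        (fun s => g x' s * g y' s) z.1 * (fun w => AB g d n k x' w * AB g d' n l y' w) z.2)) y) x := by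
    intro z
    rw [avg_mul_avg]
    congr 1
    funext x'
    congr 1
    funext y'
    show _ = d x' * d' y' * (1 * (AA g d n k x' z.2 * AA g d' n l y' z.2) +
        g y' z.1 * (AA g d n k x' z.2 * AB g d' n l y' z.2) +
        g x' z.1 * (AB g d n k x' z.2 * AA g d' n l y' z.2) +
        (g x' z.1 * g y' z.1) * (AB g d n k x' z.2 * AB g d' n l y' z.2))
    ring
  simp only [e1]
  have j1 : ∀ x' y', Integrable (fun z : S × (ℕ → S) => (fun _ => (1 : ℝ)) z.1 *
      (fun w => AA g d n k x' w * AA g d' n l y' w) z.2) ((ν 0).prod Q) := fun x' y' =>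
    (integrable_const 1).mul_prod ((hAA d k x').integrable_mul (hAA d' l y'))
  have j2 : ∀ x' y', Integrable (fun z : S × (ℕ → S) => g y' z.1 *
      (fun w => AA g d n k x' w * AB g d' n l y' w) z.2) ((ν 0).prod Q) := fun x' y' =>
    ((hL 0 y').integrable (by norm_num)).mul_prod ((hAA d k x').integrable_mul (hAB d' l y'))
  have j3 : ∀ x' y', Integrable (fun z : S × (ℕ → S) => g x' z.1 *
      (fun w => AB g d n k x' w * AA g d' n l y' w) z.2) ((ν 0).prod Q) := fun x' y' =>
    ((hL 0 x').integrable (by norm_num)).mul_prod ((hAB d k x').integrable_mul (hAA d' l y'))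
  have j4 : ∀ x' y', Integrable (fun z : S × (ℕ → S) => (fun s => g x' s * g y' s) z.1 *
      (fun w => AB g d n k x' w * AB g d' n l y' w) z.2) ((ν 0).prod Q) := fun x' y' =>
    ((hL 0 x').integrable_mul (hL 0 y')).mul_prod ((hAB d k x').integrable_mul (hAB d' l y'))
  rw [avg_integral (h := fun x' (z : S × (ℕ → S)) => avg (fun y' => d x' * d' y' * (
        (fun _ => (1 : ℝ)) z.1 * (fun w => AA g d n k x' w * AA g d' n l y' w) z.2 +
        g y' z.1 * (fun w => AA g d n k x' w * AB g d' n l y' w) z.2 +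
        g x' z.1 * (fun w => AB g d n k x' w * AA g d' n l y' w) z.2 +
        (fun s => g x' s * g y' s) z.1 * (fun w => AB g d n k x' w * AB g d' n l y' w) z.2)) y)
      x (fun x' => avg_integrable (h := fun y' (z : S × (ℕ → S)) => d x' * d' y' * (
        (fun _ => (1 : ℝ)) z.1 * (fun w => AA g d n k x' w * AA g d' n l y' w) z.2 +
        g y' z.1 * (fun w => AA g d n k x' w * AB g d' n l y' w) z.2 +
        g x' z.1 * (fun w => AB g d n k x' w * AA g d' n l y' w) z.2 +
        (fun s => g x' s * g y' s) z.1 * (fun w => AB g d n k x' w * AB g d' n l y' w) z.2))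
        y (fun y' => ((((j1 x' y').add (j2 x' y')).add (j3 x' y')).add (j4 x' y')).const_mul _))]
  congr 1
  funext x'
  rw [avg_integral (h := fun y' (z : S × (ℕ → S)) => d x' * d' y' * (
        (fun _ => (1 : ℝ)) z.1 * (fun w => AA g d n k x' w * AA g d' n l y' w) z.2 +
        g y' z.1 * (fun w => AA g d n k x' w * AB g d' n l y' w) z.2 +
        g x' z.1 * (fun w => AB g d n k x' w * AA g d' n l y' w) z.2 +
        (fun s => g x' s * g y' s) z.1 * (fun w => AB g d n k x' w * AB g d' n l y' w) z.2))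
    y (fun y' => ((((j1 x' y').add (j2 x' y')).add (j3 x' y')).add (j4 x' y')).const_mul _)]
  congr 1
  funext y'
  rw [integral_const_mul]
  congr 1
  have s3 : Integrable (fun z : S × (ℕ → S) => (fun _ => (1 : ℝ)) z.1 *
      (fun w => AA g d n k x' w * AA g d' n l y' w) z.2 + g y' z.1 *
      (fun w => AA g d n k x' w * AB g d' n l y' w) z.2) ((ν 0).prod Q) := (j1 x' y').add (j2 x' y')
  have s4 : Integrable (fun z : S × (ℕ → S) => (fun _ => (1 : ℝ)) z.1 *
      (fun w => AA g d n k x' w * AA g d' n l y' w) z.2 + g y' z.1 *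
      (fun w => AA g d n k x' w * AB g d' n l y' w) z.2 + g x' z.1 *
      (fun w => AB g d n k x' w * AA g d' n l y' w) z.2) ((ν 0).prod Q) := s3.add (j3 x' y')
  have p1 := integral_prod_mul (μ := ν 0) (ν := Q) (fun _ => (1 : ℝ))
    (fun w => AA g d n k x' w * AA g d' n l y' w)
  have p2 := integral_prod_mul (μ := ν 0) (ν := Q) (g y')
    (fun w => AA g d n k x' w * AB g d' n l y' w)
  have p3 := integral_prod_mul (μ := ν 0) (ν := Q) (g x')
    (fun w => AB g d n k x' w * AA g d' n l y' w)
  have p4 := integral_prod_mul (μ := ν 0) (ν := Q) (fun s => g x' s * g y' s)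
    (fun w => AB g d n k x' w * AB g d' n l y' w)
  rw [hm] at p2 p3
  rw [hc] at p4
  rw [integral_const, probReal_univ, one_smul, one_mul] at p1
  rw [integral_add s4 (j4 x' y'), integral_add s3 (j3 x' y'), integral_add (j1 x' y') (j2 x' y'),
    p1, p2, p3, p4]

end main

theorem t_SM : S_SM := by
  intro S _ ν _ g m c hg hL hm hc d d' hd hd'
  refine ⟨fun n k x => ⟨AA_meas g hg d n k x, AA_memLp g hg d n ν hL k x,
    AA_mean g hg d n ν m hL hm k x⟩, ?_⟩
  intro lam Φ hlam h0 hstep n
  show ∀ (k l : ℕ) (x y : V), d x = 1 → d' y = 1 → lam ^ (k + l) *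
    |∫ w, AA g d n k x w * AA g d' n l y w ∂(Measure.infinitePi ν)| ≤ Φ n 0 x y
  induction n generalizing ν m Φ with
  | zero =>
    intro k l x y hx hy
    have h1 := h0 0 x y hx hy
    have e : ∀ w : ℕ → S, AA g d 0 k x w * AA g d' 0 l y w =
        (if k = 0 then (1 : ℝ) else 0) * (if l = 0 then (1 : ℝ) else 0) := fun w => rfl
    simp only [e, integral_const, probReal_univ, smul_eq_mul, one_mul]
    by_cases hk : k = 0
    · by_cases hl : l = 0
      · simp [hk, hl]; exact h1
      · simp [hl]; linarith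
    · simp [hk]; linarith
  | succ n ih =>
    intro k l x y hx hy
    refine le_trans ?_ (hstep n 0 x y hx hy)
    have IH := ih (fun k => ν (k + 1)) (fun k => m (k + 1)) (fun k => hL (k + 1)) (fun k => hm (k + 1))
      (fun k => hc (k + 1)) (fun n j => Φ n (j + 1)) (fun j => h0 (j + 1))
      (fun n j => hstep n (j + 1))
    rw [second g hg d d' n ν (m 0) c hL (hm 0) (hc 0) k l x y]
    set Q := Measure.infinitePi (fun k : ℕ => ν (k + 1)) with hQ
    have hlk : 0 ≤ lam ^ (k + l) := by positivity
    rw [← abs_of_nonneg hlk, ← abs_mul, const_mul_avg]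
    refine (abs_avg_le _ _).trans (avg_mono x (fun x' => ?_))
    rw [const_mul_avg]
    refine (abs_avg_le _ _).trans (avg_mono y (fun y' => ?_))
    rcases hd x' with hx0 | hx1
    · rw [hx0]; simp
    rcases hd' y' with hy0 | hy1
    · rw [hy0]; simp
    have F0 : 0 ≤ Φ n 1 x' y' := le_trans (by positivity) (IH 0 0 x' y' hx1 hy1)
    have U00 := IH k l x' y' hx1 hy1
    have U01 : lam ^ (k + l) * |∫ w, AA g d n k x' w * AB g d' n l y' w ∂Q| ≤ lam * Φ n 1 x' y' := by
      by_cases hl : l = 0
      · subst hl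
        have : ∀ w : ℕ → S, AB g d' n 0 y' w = 0 := fun w => rfl
        simp only [this, mul_zero, integral_zero, abs_zero]
        positivity
      · obtain ⟨l', rfl⟩ := Nat.exists_eq_succ_of_ne_zero hl
        have h1 := IH k l' x' y' hx1 hy1
        have h2 : lam ^ (k + (l' + 1)) = lam * lam ^ (k + l') := by rw [← add_assoc, pow_succ]; ring
        show lam ^ (k + (l' + 1)) * |∫ w, AA g d n k x' w * AA g d' n l' y' w ∂Q| ≤ _
        rw [h2, mul_assoc]
        exact mul_le_mul_of_nonneg_left h1 hlam.le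
    have U10 : lam ^ (k + l) * |∫ w, AB g d n k x' w * AA g d' n l y' w ∂Q| ≤ lam * Φ n 1 x' y' := by
      by_cases hk : k = 0
      · subst hk
        have : ∀ w : ℕ → S, AB g d n 0 x' w = 0 := fun w => rfl
        simp only [this, zero_mul, integral_zero, abs_zero, mul_zero]
        positivity
      · obtain ⟨k', rfl⟩ := Nat.exists_eq_succ_of_ne_zero hk
        have h1 := IH k' l x' y' hx1 hy1
        have h2 : lam ^ (k' + 1 + l) = lam * lam ^ (k' + l) := by
          rw [show k' + 1 + l = (k' + l) + 1 by ring, pow_succ]; ring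
        show lam ^ (k' + 1 + l) * |∫ w, AA g d n k' x' w * AA g d' n l y' w ∂Q| ≤ _
        rw [h2, mul_assoc]
        exact mul_le_mul_of_nonneg_left h1 hlam.le
    have U11 : lam ^ (k + l) * |∫ w, AB g d n k x' w * AB g d' n l y' w ∂Q| ≤
        lam ^ 2 * Φ n 1 x' y' := by
      by_cases hk : k = 0
      · subst hk
        have : ∀ w : ℕ → S, AB g d n 0 x' w = 0 := fun w => rfl
        simp only [this, zero_mul, integral_zero, abs_zero, mul_zero]
        positivity
      by_cases hl : l = 0
      · subst hl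
        have : ∀ w : ℕ → S, AB g d' n 0 y' w = 0 := fun w => rfl
        simp only [this, mul_zero, integral_zero, abs_zero]
        positivity
      obtain ⟨k', rfl⟩ := Nat.exists_eq_succ_of_ne_zero hk
      obtain ⟨l', rfl⟩ := Nat.exists_eq_succ_of_ne_zero hl
      have h1 := IH k' l' x' y' hx1 hy1
      have h2 : lam ^ (k' + 1 + (l' + 1)) = lam ^ 2 * lam ^ (k' + l') := by
        rw [← pow_add]; congr 1; ring
      show lam ^ (k' + 1 + (l' + 1)) * |∫ w, AA g d n k' x' w * AA g d' n l' y' w ∂Q| ≤ _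
      rw [h2, mul_assoc]
      exact mul_le_mul_of_nonneg_left h1 (by positivity)
    rw [hx1, hy1, one_mul, one_mul, one_mul]
    generalize (∫ w, AA g d n k x' w * AA g d' n l y' w ∂Q) = u00 at U00 ⊢
    generalize (∫ w, AA g d n k x' w * AB g d' n l y' w ∂Q) = u01 at U01 ⊢
    generalize (∫ w, AB g d n k x' w * AA g d' n l y' w ∂Q) = u10 at U10 ⊢
    generalize (∫ w, AB g d n k x' w * AB g d' n l y' w ∂Q) = u11 at U11 ⊢
    generalize lam ^ (k + l) = L at hlk U00 U01 U10 U11 ⊢
    generalize Φ n 1 x' y' = F at F0 U00 U01 U10 U11 ⊢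
    have t1 : |u00 + m 0 y' * u01 + m 0 x' * u10 + (c x' y' + m 0 x' * m 0 y') * u11| ≤
        |u00| + |m 0 y'| * |u01| + |m 0 x'| * |u10| + (|c x' y'| + |m 0 x'| * |m 0 y'|) * |u11| := by
      have a1 := abs_add_le (u00 + m 0 y' * u01 + m 0 x' * u10) ((c x' y' + m 0 x' * m 0 y') * u11)
      have a2 := abs_add_le (u00 + m 0 y' * u01) (m 0 x' * u10)
      have a3 := abs_add_le u00 (m 0 y' * u01)
      have a4 := abs_add_le (c x' y') (m 0 x' * m 0 y')
      rw [abs_mul] at a1 a2 a3 a4
      have a5 := mul_le_mul_of_nonneg_right a4 (abs_nonneg u11)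
      linarith
    rw [abs_mul, abs_of_nonneg hlk]
    refine (mul_le_mul_of_nonneg_left t1 hlk).trans ?_
    have b1 := mul_le_mul_of_nonneg_left U01 (abs_nonneg (m 0 y'))
    have b2 := mul_le_mul_of_nonneg_left U10 (abs_nonneg (m 0 x'))
    have b3 := mul_le_mul_of_nonneg_left U11
      (show 0 ≤ |c x' y'| + |m 0 x'| * |m 0 y'| by positivity)
    calc L * (|u00| + |m 0 y'| * |u01| + |m 0 x'| * |u10| + (|c x' y'| + |m 0 x'| * |m 0 y'|) * |u11|)
        = L * |u00| + |m 0 y'| * (L * |u01|) + |m 0 x'| * (L * |u10|)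
          + (|c x' y'| + |m 0 x'| * |m 0 y'|) * (L * |u11|) := by ring
      _ ≤ F + |m 0 y'| * (lam * F) + |m 0 x'| * (lam * F)
          + (|c x' y'| + |m 0 x'| * |m 0 y'|) * (lam ^ 2 * F) := by linarith
      _ = _ := by ring

end Pool.Agent.H323.DP
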